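import Pool.Agent.H28.LF.T1
import Pool.Agent.H67.AG.T3

/-!
# lfu_modules, row CDB: basic facts on the correlations along the primes.
-/

set_option autoImplicit false

open MeasureTheory ProbabilityTheory Filter Topology Finset
open scoped Nat ENNReal

namespace Pool.Agent.H78.LF

open Pool.Agent.H28.LF
open Pool.Agent.H24.T2 (Pset)
open Pool.Agent.H67.AG (avgP ul Inv)

namespace CDBx

theorem meas_of_inv {Ω : Type} [MeasurableSpace Ω] {T : Ω ≃ᵐ Ω} {n : ℕ} {A : Set Ω}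
    (hA : MeasurableSet[Inv T n] A) : MeasurableSet A :=
  MeasurableSpace.invariants_le _ _ hA

theorem avgP_nonneg {m : ℕ} {F : ℕ → ℝ} (h : ∀ p, 0 ≤ F p) : 0 ≤ avgP 2 m F :=
  div_nonneg (Finset.sum_nonneg fun p _ => h p) (Nat.cast_nonneg _)

theorem avgP_le_one {m : ℕ} {F : ℕ → ℝ} (h : ∀ p, F p ≤ 1) : avgP 2 m F ≤ 1 := by
  unfold avgP
  refine div_le_one_of_le₀ ?_ (Nat.cast_nonneg _)
  calc ∑ p ∈ Pset 2 m, F p ≤ ∑ _p ∈ Pset 2 m, (1 : ℝ) := Finset.sum_le_sum fun p _ => h p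
    _ = ((Pset 2 m).card : ℝ) := by simp

theorem avgP_mono {m : ℕ} {F G : ℕ → ℝ} (h : ∀ p, F p ≤ G p) : avgP 2 m F ≤ avgP 2 m G :=
  div_le_div_of_nonneg_right (Finset.sum_le_sum fun p _ => h p) (Nat.cast_nonneg _)

section

variable {Ω : Type} [MeasurableSpace Ω] {P : Measure Ω} [IsProbabilityMeasure P] {T : Ω ≃ᵐ Ω}
  {f : Ω → ℝ}

theorem meas_it (n : ℕ) : Measurable (T^[n]) := T.measurable.iterate n

theorem integ (hf : Measurable f) (h : ∀ ω, 0 ≤ f ω ∧ f ω ≤ 1) (n : ℕ) (A : Set Ω) :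
    IntegrableOn (fun ω => f ω * f (T^[n] ω)) A P := by
  refine Integrable.of_bound (C := 1) ?_ (Eventually.of_forall fun ω => ?_)
  · exact (hf.mul (hf.comp (meas_it n))).aestronglyMeasurable
  · rw [Real.norm_eq_abs, abs_of_nonneg (mul_nonneg (h _).1 (h _).1)]
    exact mul_le_one₀ (h _).2 (h _).1 (h _).2

theorem nn (h : ∀ ω, 0 ≤ f ω ∧ f ω ≤ 1) (n : ℕ) (A : Set Ω) :
    0 ≤ ∫ ω in A, f ω * f (T^[n] ω) ∂P :=
  integral_nonneg fun ω => mul_nonneg (h _).1 (h _).1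

theorem le1 (hf : Measurable f) (h : ∀ ω, 0 ≤ f ω ∧ f ω ≤ 1) (n : ℕ) (A : Set Ω) :
    ∫ ω in A, f ω * f (T^[n] ω) ∂P ≤ 1 := by
  calc ∫ ω in A, f ω * f (T^[n] ω) ∂P ≤ ∫ _ω in A, (1 : ℝ) ∂P :=
        integral_mono (integ hf h n A) (integrable_const _)
          fun ω => mul_le_one₀ (h _).2 (h _).1 (h _).2
    _ = P.real A := by simp
    _ ≤ 1 := measureReal_le_one

end

end CDBx

open CDBx

theorem pf_CDB (hU : Pool.Agent.H67.AG.T_UL) : T_CDB := by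
  intro Ω _ P _ T U A d hT hU' hA
  obtain ⟨-, hm, -, -, hc⟩ := hU U
  have bd : ∀ f : Ω → ℝ, Measurable f → (∀ ω, 0 ≤ f ω ∧ f ω ≤ 1) → ∃ C, ∀ n,
      |avgP 2 n fun p => ∫ ω in A, f ω * f (T^[p * d] ω) ∂P| ≤ C := by
    intro f hf h
    refine ⟨1, fun n => ?_⟩
    rw [abs_of_nonneg (avgP_nonneg fun p => nn h _ _)]
    exact avgP_le_one fun p => le1 hf h _ _
  refine ⟨?_, ?_⟩
  · intro f hf h
    constructor
    · rw [← hc 0]
      exact hm _ _ ⟨0, fun n => by simp⟩ (bd f hf h)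
        (Eventually.of_forall fun n => avgP_nonneg fun p => nn h _ _)
    · rw [← hc 1]
      exact hm _ _ (bd f hf h) ⟨1, fun n => by simp⟩
        (Eventually.of_forall fun n => avgP_le_one fun p => le1 hf h _ _)
  · intro f f' hf hf' h h' hff
    refine hm _ _ (bd f hf h) (bd f' hf' h') (Eventually.of_forall fun n => avgP_mono fun p => ?_)
    refine integral_mono_ae (integ hf h _ A) (integ hf' h' _ A) ?_
    refine ae_restrict_of_ae ?_
    have h1 : ∀ᵐ ω ∂P, f (T^[p * d] ω) ≤ f' (T^[p * d] ω) :=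
      (hT.iterate (p * d)).quasiMeasurePreserving.ae hff
    filter_upwards [hff, h1] with ω a b
    exact mul_le_mul a b (h _).1 (h' _).1

end Pool.Agent.H78.LF
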