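import Pool.Agent.H28.LF.F1

/-!
# lfu_modules, row CR2: short windows with arbitrary weights.
-/

set_option autoImplicit false

open MeasureTheory ProbabilityTheory Filter Topology Finset
open scoped Nat ENNReal

namespace Pool.Agent.H78.LF

open Pool.Agent.H28.LF

theorem pf_CR2 (h1 : T_CR1) : T_CR2 := by
  intro u hu hU ε hε
  obtain ⟨K₀, hK₀⟩ := hU (ε / 2) (by linarith)
  refine ⟨max K₀ 1, fun K hK => ?_⟩
  have k1 : K₀ ≤ K := (le_max_left _ _).trans hK
  have k2 : 0 < K := lt_of_lt_of_le one_pos ((le_max_right K₀ 1).trans hK)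
  obtain ⟨C, hC⟩ := hK₀ (2 * K) (by omega)
  refine ⟨C, fun x y w hx hxy hw => ?_⟩
  have h2 := hC x y hx hxy
  calc ∑ n ∈ Icc x y, (1 / (n : ℝ)) *
      ((∑ k ∈ Icc 1 K, ‖(∑ h ∈ Icc 1 K, w n h * Fk u k (n + h)) / K‖) / K)
      ≤ ∑ n ∈ Icc x y, (1 / (n : ℝ)) * (2 * SB u (2 * K) n) := by
        refine Finset.sum_le_sum fun n _ => mul_le_mul_of_nonneg_left ?_ (by positivity)
        exact h1 u hu.1 K n (w n) k2 (hw n)
    _ = 2 * ∑ n ∈ Icc x y, SB u (2 * K) n / n := by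
        rw [Finset.mul_sum]
        refine Finset.sum_congr rfl fun n _ => ?_
        ring
    _ ≤ 2 * (ε / 2 * Real.log ((y : ℝ) / x)) := by linarith
    _ = ε * Real.log ((y : ℝ) / x) := by ring

end Pool.Agent.H78.LF
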