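import Pool.Agent.H28.LF.T1

/-!
# lfu_modules, row STC: the form of STX which is used.
-/

set_option autoImplicit false

open MeasureTheory ProbabilityTheory Filter Topology Finset
open scoped Nat ENNReal

namespace Pool.Agent.H78.LF

open Pool.Agent.H28.LF
open Pool.Agent.H24.T2 (Pset)
open Pool.Agent.H67.AG (avgP ul Inv)

namespace STCx

theorem num {D k : ℕ} {γ u S Im If : ℝ} (hD : 0 < D) (γ0 : 0 < γ) (γ1 : γ ≤ 1) (u0 : 0 ≤ u)
    (hu : (D : ℝ) * u ≤ γ ^ 2 / 16384) (hk : k = ⌈(32 / γ) ^ 2⌉₊) (If0 : 0 ≤ If)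
    (hIm : Im ≤ 2 * u * If) (S0 : 0 ≤ S)
    (h : (1 / Real.sqrt D - 1 / Real.sqrt ((D : ℝ) + ((D * k : ℕ) : ℝ))) * S ≤
      4 * Real.sqrt ((D * k : ℕ) : ℝ) * Im + 1 / Real.sqrt ((D * k : ℕ) : ℝ) * If) :
    S ≤ γ / 8 * If := by
  have D0 : (0 : ℝ) < D := by exact_mod_cast hD
  have hk1 : (32 / γ) ^ 2 ≤ (k : ℝ) := by rw [hk]; exact Nat.le_ceil _
  have hk2 : (k : ℝ) < (32 / γ) ^ 2 + 1 := by
    rw [hk]
    exact Nat.ceil_lt_add_one (by positivity)
  have hg : 1 ≤ 1 / γ := by rw [le_div_iff₀ γ0]; linarith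
  have h32 : 32 ≤ 32 / γ := by
    rw [le_div_iff₀ γ0]
    nlinarith
  have k1 : (1024 : ℝ) ≤ k := by nlinarith
  have k0 : (0 : ℝ) < k := by linarith
  obtain ⟨r, hr⟩ : ∃ r, r = Real.sqrt k := ⟨_, rfl⟩
  obtain ⟨s, hs⟩ : ∃ s, s = Real.sqrt D := ⟨_, rfl⟩
  have r0 : 0 < r := by rw [hr]; exact Real.sqrt_pos.2 k0
  have s0 : 0 < s := by rw [hs]; exact Real.sqrt_pos.2 D0
  have rr : r * r = k := by rw [hr]; exact Real.mul_self_sqrt k0.le
  have ss : s * s = D := by rw [hs]; exact Real.mul_self_sqrt D0.le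
  have r1 : 32 / γ ≤ r := by
    rw [hr]
    exact Real.le_sqrt_of_sq_le hk1
  have r2 : r ≤ 33 / γ := by
    rw [hr]
    refine Real.sqrt_le_iff.2 ⟨by positivity, ?_⟩
    have e1 : (32 / γ) ^ 2 = 1024 * (1 / γ) ^ 2 := by ring
    have e2 : (33 / γ) ^ 2 = 1089 * (1 / γ) ^ 2 := by ring
    rw [e2]
    rw [e1] at hk2
    nlinarith
  have hA : Real.sqrt ((D * k : ℕ) : ℝ) = s * r := by
    push_cast
    rw [Real.sqrt_mul D0.le, ← hs, ← hr]
  rw [hA, ← hs] at h
  have hB : 2 * s ≤ Real.sqrt ((D : ℝ) + ((D * k : ℕ) : ℝ)) := by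
    refine Real.le_sqrt_of_sq_le ?_
    push_cast
    have e1 : (2 * s) ^ 2 = 4 * D := by
      rw [← ss]
      ring
    rw [e1]
    nlinarith
  have hw : 1 / (2 * s) ≤ 1 / s - 1 / Real.sqrt ((D : ℝ) + ((D * k : ℕ) : ℝ)) := by
    have e1 : 1 / Real.sqrt ((D : ℝ) + ((D * k : ℕ) : ℝ)) ≤ 1 / (2 * s) :=
      one_div_le_one_div_of_le (by positivity) hB
    have e2 : 1 / s = 1 / (2 * s) + 1 / (2 * s) := by
      field_simp
      norm_num
    linarith
  have h2 : 1 / (2 * s) * S ≤ 4 * (s * r) * Im + 1 / (s * r) * If :=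
    (mul_le_mul_of_nonneg_right hw S0).trans h
  have h3 : S ≤ 2 * s * (4 * (s * r) * Im + 1 / (s * r) * If) := by
    have e1 : S = 2 * s * (1 / (2 * s) * S) := by field_simp
    rw [e1]
    exact mul_le_mul_of_nonneg_left h2 (by positivity)
  have h4 : 2 * s * (4 * (s * r) * Im + 1 / (s * r) * If) = 8 * D * r * Im + 2 / r * If := by
    rw [← ss]
    field_simp
    ring
  rw [h4] at h3
  have h5 : 8 * D * r * Im ≤ 16 * (D * u) * r * If := by
    calc 8 * D * r * Im ≤ 8 * D * r * (2 * u * If) :=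
          mul_le_mul_of_nonneg_left hIm (by positivity)
      _ = 16 * (D * u) * r * If := by ring
  have h6 : 16 * (D * u) * r ≤ γ / 16 := by
    calc 16 * (D * u) * r ≤ 16 * (γ ^ 2 / 16384) * (33 / γ) := by
          have e0 : 0 ≤ D * u := by positivity
          exact mul_le_mul (mul_le_mul_of_nonneg_left hu (by norm_num)) r2 r0.le (by positivity)
      _ = γ * (33 / 1024) := by
          field_simp
          ring
      _ ≤ γ / 16 := by linarith
  have h7 : 2 / r ≤ γ / 16 := by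
    rw [div_le_iff₀ r0]
    have e1 : 32 ≤ r * γ := by
      rw [div_le_iff₀ γ0] at r1
      exact r1
    linarith
  have h8 : 16 * (D * u) * r * If ≤ γ / 16 * If := mul_le_mul_of_nonneg_right h6 If0
  have h9 : 2 / r * If ≤ γ / 16 * If := mul_le_mul_of_nonneg_right h7 If0
  linarith

end STCx

open STCx

theorem pf_STC (hS : T_STX) : T_STC := by
  intro Ω _ P _ T U f D γ u hT hU hf h01 γ0 γ1 u0 hu hm
  have hle : Inv T 1 ≤ (inferInstance : MeasurableSpace Ω) := MeasurableSpace.invariants_le _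
  have hint : Integrable f P := by
    refine Integrable.of_bound (C := 1) hf.aestronglyMeasurable (Eventually.of_forall fun ω => ?_)
    rw [Real.norm_eq_abs, abs_of_nonneg (h01 ω).1]
    exact (h01 ω).2
  have If0 : 0 ≤ ∫ ω, f ω ∂P := integral_nonneg fun ω => (h01 ω).1
  rcases Nat.eq_zero_or_pos D with hD | hD
  · subst hD
    simp only [Finset.Icc_eq_empty_of_lt Nat.zero_lt_one, Finset.sum_empty, mul_zero]
    positivity
  rcases le_or_gt 0 (2 * ∑ d ∈ Icc 1 D, Cd U P T f Set.univ d) with S0 | S0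
  · have hn : 0 ≤ᵐ[P] P[f | Inv T 1] :=
      condExp_nonneg (Eventually.of_forall fun ω => (h01 ω).1)
    have hIm : ∫ ω, ((P[f | Inv T 1]) ω) ^ 2 ∂P ≤ 2 * u * ∫ ω, f ω ∂P := by
      calc ∫ ω, ((P[f | Inv T 1]) ω) ^ 2 ∂P ≤ ∫ ω, 2 * u * (P[f | Inv T 1]) ω ∂P := by
            refine integral_mono_of_nonneg (Eventually.of_forall fun ω => sq_nonneg _)
              (integrable_condExp.const_mul _) ?_
            filter_upwards [hn, hm] with ω a b
            have a' : 0 ≤ (P[f | Inv T 1]) ω := a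
            show ((P[f | Inv T 1]) ω) ^ 2 ≤ 2 * u * (P[f | Inv T 1]) ω
            rw [sq]
            exact mul_le_mul_of_nonneg_right b a'
        _ = 2 * u * ∫ ω, f ω ∂P := by
            rw [integral_const_mul, integral_condExp hle]
    obtain ⟨k, hk⟩ : ∃ k, k = ⌈(32 / γ) ^ 2⌉₊ := ⟨_, rfl⟩
    have kpos : 0 < k := by
      rw [hk]
      exact Nat.ceil_pos.2 (by positivity)
    exact num hD γ0 γ1 u0 hu hk If0 hIm S0
      (hS Ω P T U f D (D * k) hT hU hf h01 hD (Nat.mul_pos hD kpos))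
  · have : 0 ≤ γ / 8 * ∫ ω, f ω ∂P := by positivity
    linarith

end Pool.Agent.H78.LF
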