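import Pool.Agent.H25.LF.Targets

/-!
# Row SDF of the board lpf_modules: the sum over the squarefree numbers prime to `d`
-/

set_option autoImplicit false

open Finset Real ArithmeticFunction

namespace Pool.Agent.H78.LF

open Pool.Agent.H25.LF Pool.Agent.H75.PS

theorem sdf_erase (g : ℕ → ℝ) (P : Finset ℕ) (hg : ∀ q ∈ P, 0 ≤ g q) (x p : ℕ) (hp0 : 0 < p)
    (hgp : 0 ≤ g p) : FF g P x ≤ (1 + g p) * FF g (P.erase p) x := by
  have hg' : ∀ q ∈ P.erase p, 0 ≤ g q := fun q hq => hg q (Finset.mem_of_mem_erase hq)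
  have hn : 0 ≤ FF g (P.erase p) x := FF_nonneg _ _ hg' _
  by_cases hp : p ∈ P
  · conv_lhs => rw [← Finset.insert_erase hp]
    rw [FF_insert _ _ _ _ (Finset.notMem_erase p P) hp0]
    have h1 : FF g (P.erase p) (x / p) ≤ FF g (P.erase p) x :=
      FF_mono _ _ hg' (Nat.div_le_self x p)
    have h2 := mul_le_mul_of_nonneg_left h1 hgp
    linarith
  · rw [Finset.erase_eq_of_notMem hp] at hn ⊢
    have h2 := mul_nonneg hgp hn
    linarith

theorem sdf_sdiff (g : ℕ → ℝ) (P B : Finset ℕ) (hg : ∀ q ∈ P, 0 ≤ g q) (x : ℕ)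
    (hB : ∀ p ∈ B, 0 < p ∧ 0 ≤ g p) :
    FF g P x ≤ (∏ p ∈ B, (1 + g p)) * FF g (P \ B) x := by
  classical
  induction B using Finset.induction_on with
  | empty => simp
  | insert p B hp ih =>
    have ih' := ih (fun q hq => hB q (Finset.mem_insert_of_mem hq))
    have hpB := hB p (Finset.mem_insert_self p B)
    rw [Finset.prod_insert hp]
    have h1 := sdf_erase g (P \ B) (fun q hq => hg q (Finset.mem_sdiff.1 hq).1) x p hpB.1 hpB.2
    have h2 : (P \ B).erase p = P \ insert p B := by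
      ext q
      simp only [Finset.mem_erase, Finset.mem_sdiff, Finset.mem_insert]
      tauto
    rw [h2] at h1
    have h3 : 0 ≤ ∏ q ∈ B, (1 + g q) := Finset.prod_nonneg fun q hq => by
      have := (hB q (Finset.mem_insert_of_mem hq)).2
      linarith
    calc FF g P x ≤ (∏ q ∈ B, (1 + g q)) * FF g (P \ B) x := ih'
      _ ≤ (∏ q ∈ B, (1 + g q)) * ((1 + g p) * FF g (P \ insert p B) x) :=
          mul_le_mul_of_nonneg_left h1 h3
      _ = _ := by ring

theorem pf_SDF (hHAR : T_HAR) : T_SDF := by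
  intro d z hd
  refine (hHAR z).trans ?_
  obtain ⟨g, hg⟩ : ∃ g : ℕ → ℝ, g = fun p : ℕ => 1 / ((p : ℝ) - 1) := ⟨_, rfl⟩
  rw [← hg]
  have hg0 : ∀ p : ℕ, p.Prime → 0 ≤ g p := by
    intro p hp
    rw [hg]
    have h1 : (1 : ℝ) < p := by exact_mod_cast hp.one_lt
    have h2 : (0 : ℝ) < (p : ℝ) - 1 := by linarith
    positivity
  have h1 := sdf_sdiff g (Nat.primesLE z) d.primeFactors
    (fun q hq => hg0 q (Nat.mem_primesLE.1 hq).2) z
    (fun p hp => ⟨(Nat.prime_of_mem_primeFactors hp).pos, hg0 p (Nat.prime_of_mem_primeFactors hp)⟩)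
  have h2 : Nat.primesLE z \ d.primeFactors = SP d z := by
    ext q
    rw [Finset.mem_sdiff, mem_SP, Nat.mem_primesLE, Nat.mem_primeFactors]
    constructor
    · rintro ⟨h3, h4⟩
      exact ⟨h3, fun h5 => h4 ⟨h3.2, h5, hd.ne'⟩⟩
    · rintro ⟨h3, h4⟩
      exact ⟨h3, fun h5 => h4 h5.2.1⟩
  have h3 : ∏ p ∈ d.primeFactors, (1 + g p) = (d : ℝ) / d.totient := by
    have h4 : (d.totient : ℝ) = (d : ℝ) * ∏ p ∈ d.primeFactors, (1 - ((p : ℝ))⁻¹) := by
      have h5 := Nat.totient_eq_mul_prod_factors d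
      have h6 : ((d.totient : ℚ) : ℝ) = (((d : ℚ) * ∏ p ∈ d.primeFactors, (1 - ((p : ℚ))⁻¹) : ℚ) : ℝ) := by
        rw [h5]
      push_cast at h6
      exact h6
    have hd0 : (d : ℝ) ≠ 0 := by exact_mod_cast hd.ne'
    have h7 : (∏ p ∈ d.primeFactors, (1 + g p)) * ∏ p ∈ d.primeFactors, (1 - ((p : ℝ))⁻¹) = 1 := by
      rw [← Finset.prod_mul_distrib]
      refine Finset.prod_eq_one fun p hp => ?_
      have h8 : (1 : ℝ) < p := by exact_mod_cast (Nat.prime_of_mem_primeFactors hp).one_lt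
      have h9 : (p : ℝ) - 1 ≠ 0 := by linarith
      have h10 : (p : ℝ) ≠ 0 := by linarith
      rw [hg]
      field_simp
      ring
    have hφ : (d.totient : ℝ) ≠ 0 := by
      have := Nat.totient_pos.2 hd
      exact_mod_cast this.ne'
    rw [eq_div_iff hφ, h4]
    calc (∏ p ∈ d.primeFactors, (1 + g p)) * ((d : ℝ) * ∏ p ∈ d.primeFactors, (1 - ((p : ℝ))⁻¹))
        = (d : ℝ) * ((∏ p ∈ d.primeFactors, (1 + g p)) *
            ∏ p ∈ d.primeFactors, (1 - ((p : ℝ))⁻¹)) := by ring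
      _ = d := by rw [h7, mul_one]
  rw [h2, h3] at h1
  exact h1

end Pool.Agent.H78.LF
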