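import Pool.Agent.H25.LF.Targets

/-!
# Row SEL of the board lpf_modules: Selberg's sieve with the weights bounded by one
-/

set_option autoImplicit false

open Finset Real ArithmeticFunction
open scoped ArithmeticFunction.Moebius

namespace Pool.Agent.H78.LF

open Pool.Agent.H25.LF Pool.Agent.H75.PS BoundingSieve

/-- the sum over the cofactors -/
noncomputable def selT (s : BoundingSieve) (R d : ℕ) : ℝ :=
  ∑ m ∈ s.prodPrimes.divisors with (Nat.Coprime m d ∧ d * m ≤ R), s.selbergTerms m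

theorem sel_mult (s : BoundingSieve) (R d : ℕ) (hd : d ∣ s.prodPrimes) :
    ∑ l ∈ s.prodPrimes.divisors with (l ≤ R ∧ d ∣ l), s.selbergTerms l =
      s.selbergTerms d * selT s R d := by
  have hP : s.prodPrimes ≠ 0 := prodPrimes_ne_zero
  have hd0 : 0 < d := Nat.pos_of_dvd_of_pos hd (Nat.pos_of_ne_zero hP)
  unfold selT
  rw [Finset.mul_sum]
  symm
  apply Finset.sum_bij (fun m _ => d * m)
  · intro m hm
    simp only [Finset.mem_filter, Nat.mem_divisors] at hm ⊢
    exact ⟨⟨Nat.Coprime.mul_dvd_of_dvd_of_dvd hm.2.1.symm hd hm.1.1, hP⟩, hm.2.2,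
      Dvd.intro _ rfl⟩
  · intro a _ b _ hab
    exact Nat.eq_of_mul_eq_mul_left hd0 hab
  · intro l hl
    simp only [Finset.mem_filter, Nat.mem_divisors] at hl
    obtain ⟨m, rfl⟩ := hl.2.2
    refine ⟨m, ?_, rfl⟩
    simp only [Finset.mem_filter, Nat.mem_divisors]
    have hsq : Squarefree (d * m) := squarefree_of_dvd_prodPrimes hl.1.1
    exact ⟨⟨(Dvd.intro_left _ rfl).trans hl.1.1, hP⟩,
      (Nat.coprime_of_squarefree_mul hsq).symm, hl.2.1⟩
  · intro m hm
    simp only [Finset.mem_filter, Nat.mem_divisors] at hm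
    rw [selbergTerms_isMultiplicative.map_mul_of_coprime hm.2.1.symm]

theorem sel_le (s : BoundingSieve) (R d : ℕ) (hd : d ∣ s.prodPrimes) :
    s.selbergTerms d * (s.nu d)⁻¹ * selT s R d ≤ SS s R := by
  have hP : s.prodPrimes ≠ 0 := prodPrimes_ne_zero
  have hd0 : 0 < d := Nat.pos_of_dvd_of_pos hd (Nat.pos_of_ne_zero hP)
  rw [← sum_divisors_selbergTerms_eq_selbergTerms_mul_nu_inv hd, ← Finset.sum_filter]
  unfold selT SS
  rw [Finset.sum_mul_sum, ← Finset.sum_product']
  have hinj : Set.InjOn (fun x : ℕ × ℕ => x.1 * x.2)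
      ((s.prodPrimes.divisors.filter (fun k => k ∣ d)) ×ˢ (s.prodPrimes.divisors.filter
        (fun m => Nat.Coprime m d ∧ d * m ≤ R)) : Finset (ℕ × ℕ)) := by
    rintro ⟨k, m⟩ hx ⟨k', m'⟩ hx' h
    simp only [Finset.coe_product, Set.mem_prod, Finset.mem_coe, Finset.mem_filter,
      Nat.mem_divisors] at hx hx' h
    have h1 : Nat.gcd (k * m) d = k := by
      rw [Nat.Coprime.gcd_mul_right_cancel k hx.2.2.1]
      exact Nat.gcd_eq_left hx.1.2
    have h2 : Nat.gcd (k' * m') d = k' := by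
      rw [Nat.Coprime.gcd_mul_right_cancel k' hx'.2.2.1]
      exact Nat.gcd_eq_left hx'.1.2
    have h3 : k = k' := by rw [← h1, ← h2, h]
    subst h3
    have hk0 : 0 < k := Nat.pos_of_dvd_of_pos hx.1.2 hd0
    rw [Nat.eq_of_mul_eq_mul_left hk0 h]
  calc ∑ x ∈ (s.prodPrimes.divisors.filter (fun k => k ∣ d)) ×ˢ (s.prodPrimes.divisors.filter
        (fun m => Nat.Coprime m d ∧ d * m ≤ R)), s.selbergTerms x.1 * s.selbergTerms x.2
      = ∑ x ∈ (s.prodPrimes.divisors.filter (fun k => k ∣ d)) ×ˢ (s.prodPrimes.divisors.filter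
        (fun m => Nat.Coprime m d ∧ d * m ≤ R)), s.selbergTerms (x.1 * x.2) := by
        apply Finset.sum_congr rfl
        intro x hx
        simp only [Finset.mem_product, Finset.mem_filter, Nat.mem_divisors] at hx
        rw [selbergTerms_isMultiplicative.map_mul_of_coprime]
        exact (Nat.Coprime.coprime_dvd_right hx.1.2 hx.2.2.1).symm
    _ = ∑ l ∈ ((s.prodPrimes.divisors.filter (fun k => k ∣ d)) ×ˢ (s.prodPrimes.divisors.filter
        (fun m => Nat.Coprime m d ∧ d * m ≤ R))).image (fun x : ℕ × ℕ => x.1 * x.2),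
          s.selbergTerms l := (Finset.sum_image hinj).symm
    _ ≤ ∑ l ∈ s.prodPrimes.divisors with l ≤ R, s.selbergTerms l := by
        apply Finset.sum_le_sum_of_subset_of_nonneg
        · intro l hl
          simp only [Finset.mem_image, Finset.mem_product, Finset.mem_filter,
            Nat.mem_divisors] at hl ⊢
          obtain ⟨x, hx, rfl⟩ := hl
          have hc : Nat.Coprime x.1 x.2 := (Nat.Coprime.coprime_dvd_right hx.1.2 hx.2.2.1).symm
          refine ⟨⟨Nat.Coprime.mul_dvd_of_dvd_of_dvd hc hx.1.1.1 hx.2.1.1, hP⟩, ?_⟩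
          exact (Nat.mul_le_mul_right _ (Nat.le_of_dvd hd0 hx.1.2)).trans hx.2.2.2
        · intro l hl _
          simp only [Finset.mem_filter, Nat.mem_divisors] at hl
          exact (selbergTerms_pos hl.1.1).le

/-- the sharp bound of the weights -/
theorem wt_abs_le_one (s : BoundingSieve) (R : ℕ) (hR : 1 ≤ R) (d : ℕ) (hd : d ∣ s.prodPrimes) :
    |wt s R d| ≤ 1 := by
  have hS := SS_pos s R hR
  have hn := nu_pos_of_dvd_prodPrimes hd
  have hg := selbergTerms_pos hd
  have hT : 0 ≤ selT s R d := by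
    unfold selT
    apply Finset.sum_nonneg
    intro l hl
    simp only [Finset.mem_filter, Nat.mem_divisors] at hl
    exact (selbergTerms_pos hl.1.1).le
  unfold wt
  rw [sel_mult s R d hd, abs_mul, abs_mul, abs_mul]
  have h1 : |(s.nu d)⁻¹| = (s.nu d)⁻¹ := abs_of_pos (inv_pos.mpr hn)
  have h2 : |((μ d : ℤ) : ℝ)| ≤ 1 := by
    have := abs_moebius_le_one (n := d)
    rw [← Int.cast_abs]
    exact_mod_cast this
  have h3 : |(SS s R)⁻¹| = (SS s R)⁻¹ := abs_of_pos (inv_pos.mpr hS)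
  have h4 : |s.selbergTerms d * selT s R d| = s.selbergTerms d * selT s R d :=
    abs_of_nonneg (mul_nonneg hg.le hT)
  rw [h1, h3, h4]
  have h5 := sel_le s R d hd
  calc (s.nu d)⁻¹ * |((μ d : ℤ) : ℝ)| * (SS s R)⁻¹ * (s.selbergTerms d * selT s R d)
      ≤ (s.nu d)⁻¹ * 1 * (SS s R)⁻¹ * (s.selbergTerms d * selT s R d) := by
        have ha : 0 ≤ (s.nu d)⁻¹ := (inv_pos.mpr hn).le
        have hb : 0 ≤ (SS s R)⁻¹ := (inv_pos.mpr hS).le
        have hc : 0 ≤ s.selbergTerms d * selT s R d := mul_nonneg hg.le hT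
        gcongr
    _ = (s.selbergTerms d * (s.nu d)⁻¹ * selT s R d) * (SS s R)⁻¹ := by ring
    _ ≤ SS s R * (SS s R)⁻¹ := mul_le_mul_of_nonneg_right h5 (inv_pos.mpr hS).le
    _ = 1 := mul_inv_cancel₀ hS.ne'

theorem pf_SEL : T_SEL := by
  intro s R hR
  have h1 := siftedSum_le_mainSum_errSum_of_upperMoebius (s := s) _
    (upperMoebius_lambdaSquared (wt s R) (wt_one s R hR))
  rw [mainSum_eq s R hR] at h1
  refine h1.trans (add_le_add_right ?_ _)
  refine (errSum_le s (wt s R)).trans ?_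
  have h2 : ∀ d1 ∈ s.prodPrimes.divisors, ∑ d2 ∈ s.prodPrimes.divisors,
      |wt s R d1| * |wt s R d2| * |s.rem (d1.lcm d2)| ≤
      if d1 ≤ R then ∑ d2 ∈ s.prodPrimes.divisors with d2 ≤ R, |s.rem (d1.lcm d2)| else 0 := by
    intro d1 hd1
    rw [Nat.mem_divisors] at hd1
    split_ifs with h
    · rw [Finset.sum_filter]
      apply Finset.sum_le_sum
      intro d2 hd2
      rw [Nat.mem_divisors] at hd2
      split_ifs with h'
      · have a1 := wt_abs_le_one s R hR d1 hd1.1
        have a2 := wt_abs_le_one s R hR d2 hd2.1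
        calc |wt s R d1| * |wt s R d2| * |s.rem (d1.lcm d2)|
            ≤ 1 * 1 * |s.rem (d1.lcm d2)| := by gcongr
          _ = |s.rem (d1.lcm d2)| := by ring
      · rw [wt_eq_zero s R d2 (not_le.mp h')]
        simp
    · rw [wt_eq_zero s R d1 (not_le.mp h)]
      simp
  refine (Finset.sum_le_sum h2).trans ?_
  rw [← Finset.sum_filter]

end Pool.Agent.H78.LF
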